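import Mathlib

set_option autoImplicit false

namespace Pool.Agent.Results.MP_6598fd_al.Symp

open Matrix Module

/-- The rank property. -/
def RankProp {F : Type} [Field F] {n : ℕ} (G : Subgroup (GL (Fin n) F)) : Prop :=
  ∀ a : Matrix (Fin n) (Fin n) F, a.det = 0 → ∃ g ∈ G, (a * g.1 * a).rank = a.rank

variable {F ι : Type} [Field F] [Fintype ι] [DecidableEq ι]

def Sp (J : Matrix ι ι F) : Subgroup (GL ι F) where
  carrier := {g | ∀ x y, (g.1 *ᵥ x) ⬝ᵥ J *ᵥ (g.1 *ᵥ y) = x ⬝ᵥ J *ᵥ y}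
  one_mem' := fun x y => by simp
  mul_mem' := fun {a b} ha hb x y => by
    rw [Units.val_mul, ← mulVec_mulVec, ← mulVec_mulVec, ha, hb]
  inv_mem' := fun {a} ha x y => by
    rw [← ha, mulVec_mulVec x, mulVec_mulVec y a.1, Units.mul_inv, one_mulVec, one_mulVec]

variable {J : Matrix ι ι F} (alt : ∀ x, x ⬝ᵥ J *ᵥ x = 0) (nd : ∀ x, J *ᵥ x = 0 → x = 0)
include alt

theorem tv (v : ι → F) : ∃ t ∈ Sp J, ∀ x, t.1 *ᵥ x = x + (v ⬝ᵥ J *ᵥ x) • v := by
  have h : (v ᵥ* J) ⬝ᵥ v = 0 := by rw [← dotProduct_mulVec, alt]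
  have e : ∀ x, (1 + vecMulVec v (v ᵥ* J)) *ᵥ x = x + (v ⬝ᵥ J *ᵥ x) • v := fun x => by
    simp [add_mulVec, vecMulVec_mulVec, dotProduct_mulVec]
  refine ⟨⟨1 + vecMulVec v (v ᵥ* J), 1 - vecMulVec v (v ᵥ* J), ?_, ?_⟩, fun x y => ?_, e⟩
  · simp [mul_sub, add_mul, vecMulVec_mul_vecMulVec, h]
  · simp [sub_mul, mul_add, vecMulVec_mul_vecMulVec, h]
  · have := alt (x + v)
    simp only [e, mulVec_add, mulVec_smul, add_dotProduct, dotProduct_add, smul_dotProduct,
      dotProduct_smul, alt, smul_eq_mul] at this ⊢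
    linear_combination (v ⬝ᵥ J *ᵥ y) * this

omit alt in
theorem fr (g : GL ι F) (U : Submodule F (ι → F)) : finrank F (U.map g.1.mulVecLin) = finrank F U :=
  (U.equivMapOfInjective _ (mulVec_injective_of_isUnit g.isUnit)).finrank_eq.symm

include nd

theorem trans (W : Submodule F (ι → F)) (k : ℕ) : ∀ U : Submodule F (ι → F),
    finrank F (U ⊓ W : Submodule F _) = k → finrank F U + finrank F W ≤ Fintype.card ι →
    ∃ g ∈ Sp J, U.map g.1.mulVecLin ⊓ W = ⊥ := by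
  induction k using Nat.strong_induction_on with
  | _ k ih =>
    intro U hk hd
    by_cases h : U ⊓ W = ⊥
    · exact ⟨1, one_mem _, by simpa using h⟩
    obtain ⟨u, hu, u0⟩ := (Submodule.ne_bot_iff _).1 h
    obtain ⟨a, ha⟩ : ∃ a, a ∉ U ⊔ W := by
      by_contra hc
      push Not at hc
      have h1 := Submodule.finrank_sup_add_finrank_inf_eq U W
      rw [show U ⊔ W = ⊤ from eq_top_iff.2 fun a _ => hc a, finrank_top, finrank_fintype_fun_eq_card] at h1
      exact h (Submodule.finrank_eq_zero.1 (by omega))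
    obtain ⟨b, hb⟩ : ∃ b, b ⬝ᵥ J *ᵥ u ≠ 0 := by
      obtain ⟨i, hi⟩ := Function.ne_iff.1 (mt (nd u) u0)
      exact ⟨Pi.single i 1, by simpa using hi⟩
    obtain ⟨v, v1, v2⟩ : ∃ v, v ∉ U ⊔ W ∧ v ⬝ᵥ J *ᵥ u ≠ 0 := by
      by_cases h1 : a ⬝ᵥ J *ᵥ u = 0
      · by_cases h2 : b ∈ U ⊔ W
        · exact ⟨a + b, fun h => ha (by simpa using sub_mem h h2), by
            rwa [add_dotProduct, h1, zero_add]⟩
        · exact ⟨b, h2, hb⟩
      · exact ⟨a, ha, h1⟩
    obtain ⟨t, ht, e⟩ := tv alt v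
    have key : ∀ x ∈ U.map t.1.mulVecLin ⊓ W, x ∈ U ⊓ W ∧ v ⬝ᵥ J *ᵥ x = 0 := by
      rintro _ ⟨⟨x, hx, rfl⟩, hw⟩
      rw [mulVecLin_apply, e] at hw ⊢
      have : v ⬝ᵥ J *ᵥ x = 0 := by
        by_contra hc
        exact v1 ((Submodule.smul_mem_iff _ hc).1 (by
          simpa using sub_mem (Submodule.mem_sup_right hw) (Submodule.mem_sup_left hx)))
      simp only [this, zero_smul, add_zero] at hw ⊢
      exact ⟨⟨hx, hw⟩, trivial⟩
    obtain ⟨g, hg, h2⟩ := ih _ (hk ▸ Submodule.finrank_lt_finrank_of_lt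
      (lt_of_le_of_ne (fun x hx => (key x hx).1) fun h => v2 (key u (h ▸ hu)).2)) _ rfl
      (by rwa [fr])
    exact ⟨g * t, mul_mem hg ht, by rwa [Units.val_mul, mulVecLin_mul, Submodule.map_comp]⟩

theorem rank_prop (a : Matrix ι ι F) : ∃ g ∈ Sp J, (a * g.1 * a).rank = a.rank := by
  obtain ⟨g, hg, h⟩ := trans alt nd (LinearMap.ker a.mulVecLin) _ (LinearMap.range a.mulVecLin) rfl
    (by rw [LinearMap.finrank_range_add_finrank_ker, finrank_fintype_fun_eq_card])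
  refine ⟨g, hg, ?_⟩
  rw [rank, rank, mulVecLin_mul, mulVecLin_mul, LinearMap.range_comp, Submodule.map_comp,
    ← LinearMap.range_domRestrict, LinearMap.finrank_range_of_inj
      (LinearMap.injective_domRestrict_iff.2 (disjoint_iff.2 h)), fr]

omit alt nd in
theorem result (F : Type) [Field F] (m : ℕ) (hm : 2 ≤ m) : ∃ G : Subgroup (GL (Fin (m + m)) F),
    RankProp G ∧ ¬ ∀ s : SpecialLinearGroup (Fin (m + m)) F, SpecialLinearGroup.toGL s ∈ G := by
  set e : Fin m ⊕ Fin m ≃ Fin (m + m) := finSumFinEquiv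
  refine ⟨Sp (reindex e e (J (Fin m) F)), fun a _ => rank_prop (fun x => ?_) (fun x h => ?_) a,
    fun h => ?_⟩
  · rw [reindex_apply, submatrix_mulVec_equiv, dotProduct, ← e.sum_comp]
    simp [J, fromBlocks_mulVec, neg_mulVec, mul_comm]
  · exact mulVec_injective_of_isUnit ((isUnit_iff_isUnit_det _).2 (by
      rw [det_reindex_self]; exact isUnit_det_J _ _)) (h.trans (mulVec_zero _).symm)
  · have hij : e (.inl ⟨0, by omega⟩) ≠ e (.inl ⟨1, by omega⟩) := by simp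
    have := h (SpecialLinearGroup.transvection hij 1) (Pi.single (e (.inl ⟨1, by omega⟩)) 1)
      (Pi.single (e (.inr ⟨0, by omega⟩)) 1)
    rw [show (SpecialLinearGroup.toGL (SpecialLinearGroup.transvection hij (1 : F))).1 =
      1 + single (e (.inl ⟨0, by omega⟩)) (e (.inl ⟨1, by omega⟩)) 1 from rfl] at this
    simp [-mulVec_single, add_mulVec, single_mulVec_eq, Pi.single_apply] at this
    simp [J] at this

end Pool.Agent.Results.MP_6598fd_al.Symp
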